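import Pool.Agent.Results.MP_9d7cd1_nt.RealPowers
import Pool.Agent.X283.DA.Pack

/-!
# Hall's conjecture on Mordell's equation: no exceptions with `|d|` among the denominators of good approximations

1. Let `A ≥ 2` and let `c` be real. Let `θ, y ∈ ℝ ^ D`, `θ_i ≥ 0`, `θ_1 + ... + θ_D > A / 4 + 1 / 6`. For almost all
`x ∈ ℝ ^ D`, for all integers `d ≠ 0` with `|d|` large and `|d| x_i` within `|d| ^ (-θ_i)` of `y_i` modulo `1` for all `i`,
all integral solutions of `v² = u³ + d` with `u ≠ 0`, `log |u| ≤ A log |d|` satisfy `log |u| < 2 log |d| - c`.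

2. If `θ_1 + ... + θ_D > 99 / 100`, then for almost all `x ∈ ℝ ^ D`, for all these `d`, all integral solutions of
`v² = u³ + d` satisfy `log |u| > |d| ^ (1 / 10000)`.

For `D = 1` there are bounds for the dimension of the exceptional set.

The numbers of exceptions are from the starting results `MP_f2148a_nt.SparseViolations` and `MP_f2148a_nt.AlmostAllK`,
the passage to denominators is `Pool.Agent.X283.DA`.
-/

set_option autoImplicit false

namespace Pool.Agent.Results.MP_9d7cd1_nt.Denominators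

open MeasureTheory
open Pool.Agent.X283.DA (AllDenominators GoodAtDenominators GoodAtApproximations Sparse sparse_of_nat pack)

/-- for the integers `d` with `|d| = n`, `d ≠ 0`, all integral solutions of `v² = u³ + d` with `u ≠ 0`,
`log |u| ≤ A log |d|` satisfy `log |u| < 2 log |d| - c` -/
def HallUpTo (A c : ℝ) (n : ℕ) : Prop :=
  ∀ d : ℤ, d ≠ 0 → |(d : ℝ)| = n → ∀ u v : ℤ, v ^ 2 = u ^ 3 + d → u ≠ 0 →
    Real.log |(u : ℝ)| ≤ A * Real.log |(d : ℝ)| → Real.log |(u : ℝ)| < 2 * Real.log |(d : ℝ)| - c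

/-- for the integers `d` with `|d| = n`, `d ≠ 0`, all integral solutions of `v² = u³ + d` satisfy
`log |u| > |d| ^ (1 / 10000)` -/
def OnlyHuge (n : ℕ) : Prop :=
  ∀ d : ℤ, d ≠ 0 → |(d : ℝ)| = n → ∀ u v : ℤ, v ^ 2 = u ^ 3 + d →
    |(d : ℝ)| ^ ((1 : ℝ) / 10000) < Real.log |(u : ℝ)|

theorem transfer (S : Set ℤ) (s : ℝ) (hs : 0 ≤ s) (h : ∀ ε : ℝ, 0 < ε → ∃ M : ℝ, ∀ X : ℝ, 1 ≤ X →
    {k | k ∈ S ∧ |((k : ℤ) : ℝ)| ≤ X}.Finite ∧
      ({k | k ∈ S ∧ |((k : ℤ) : ℝ)| ≤ X}.ncard : ℝ) ≤ M * X ^ (s + ε)) :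
    Sparse {n : ℕ | ∃ k ∈ S, |((k : ℤ) : ℝ)| = n} s := by
  refine sparse_of_nat hs fun ε hε => ?_
  obtain ⟨M, hM⟩ := h ε hε
  refine ⟨M, fun X hX => ?_⟩
  obtain ⟨h1, h2⟩ := hM X (by exact_mod_cast hX)
  refine le_trans ?_ h2
  have hsub : {n : ℕ | n ∈ {n : ℕ | ∃ k ∈ S, |((k : ℤ) : ℝ)| = n} ∧ n ≤ X} ⊆
      Int.natAbs '' {k | k ∈ S ∧ |((k : ℤ) : ℝ)| ≤ X} := by
    rintro n ⟨⟨k, hk, hkn⟩, hn⟩
    refine ⟨k, ⟨hk, ?_⟩, ?_⟩
    · rw [hkn]
      exact_mod_cast hn
    · have : ((k.natAbs : ℕ) : ℝ) = n := by rw [Nat.cast_natAbs, Int.cast_abs]; exact hkn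
      exact_mod_cast this
  exact Nat.cast_le.2 ((Set.ncard_le_ncard hsub (h1.image _)).trans (Set.ncard_image_le h1))

theorem mono {P Q : Set ℕ} {s : ℝ} (h : P ⊆ Q) (hQ : Sparse Q s) : Sparse P s := by
  intro ε hε
  obtain ⟨C, hC⟩ := hQ ε hε
  refine ⟨C, fun X hX => ?_⟩
  obtain ⟨h1, h2⟩ := hC X hX
  have hsub : {t : ℕ | t ∈ P ∧ (t : ℝ) ≤ X} ⊆ {t : ℕ | t ∈ Q ∧ (t : ℝ) ≤ X} := fun t ht => ⟨h ht.1, ht.2⟩
  exact ⟨h1.subset hsub, (Nat.cast_le.2 (Set.ncard_le_ncard hsub h1)).trans h2⟩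

/-- **Theorem.** (1) Let `A ≥ 2` and let `c` be a real number. The property `HallUpTo A c` of natural numbers holds for
the denominators of good simultaneous and of good inhomogeneous rational approximations with exponent `A / 4 + 1 / 6`.
(2) The property `OnlyHuge` holds for the denominators of good simultaneous and of good inhomogeneous rational
approximations with exponent `99 / 100`. -/
theorem result :
    (∀ A c : ℝ, 2 ≤ A → GoodAtDenominators (HallUpTo A c) (A / 4 + 1 / 6) ∧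
      GoodAtApproximations (HallUpTo A c) (A / 4 + 1 / 6)) ∧
    GoodAtDenominators OnlyHuge (99 / 100) ∧ GoodAtApproximations OnlyHuge (99 / 100) := by
  refine ⟨fun A c hA => ?_, ?_⟩
  · have h1 : Sparse {n : ℕ | ¬ HallUpTo A c n} (A / 4 + 1 / 6) := by
      refine mono ?_ (transfer (RealPowers.Viol A c) (A / 4 + 1 / 6) (by linarith)
        (fun ε hε => RealPowers.count_viol A c hA ε hε))
      intro n hn
      unfold HallUpTo at hn
      simp only [Set.mem_setOf_eq, not_forall, not_lt] at hn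
      obtain ⟨d, hd, hdn, u, v, huv, hu, h2, h3⟩ := hn
      exact ⟨d, ⟨hd, u, v, huv, hu, h3, h2⟩, hdn⟩
    exact (pack _ (by linarith) h1).2.2
  · have h1 : Sparse {n : ℕ | ¬ OnlyHuge n} (99 / 100) := by
      refine mono ?_ (transfer RealPowers.Sol (99 / 100) (by norm_num) (fun ε hε => ?_))
      · intro n hn
        unfold OnlyHuge at hn
        simp only [Set.mem_setOf_eq, not_forall, not_lt] at hn
        obtain ⟨d, hd, hdn, u, v, huv, h2⟩ := hn
        exact ⟨d, ⟨hd, u, v, huv, h2⟩, hdn⟩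
      · obtain ⟨M, hM⟩ := RealPowers.count_sol
        refine ⟨|M|, fun X hX => ⟨(hM X hX).1, (hM X hX).2.trans ?_⟩⟩
        have hX0 : (0 : ℝ) < X := by linarith
        calc M * X ^ ((99 : ℝ) / 100) ≤ |M| * X ^ ((99 : ℝ) / 100) :=
              mul_le_mul_of_nonneg_right (le_abs_self M) (by positivity)
          _ ≤ |M| * X ^ ((99 : ℝ) / 100 + ε) :=
              mul_le_mul_of_nonneg_left (Real.rpow_le_rpow_of_exponent_le hX (by linarith))
                (abs_nonneg M)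
    exact (pack _ (by norm_num) h1).2.2

end Pool.Agent.Results.MP_9d7cd1_nt.Denominators
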