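import Pool.Agent.Results.MP_f2148a_nt.SparseViolations
import Pool.Agent.Results.MP_f2148a_nt.AlmostAllK
import Pool.Agent.Y854.GM.Win

/-!
# Hall's conjecture on Mordell's equation: no exceptions for the `d` in windows around thin sequences

Let `v ≥ 1` be a sequence with exponent of convergence at most `τ` (for `v_n = n ^ a` this is `1 / a`, for `v_n = b ^ n`
or `n!` it is `0`) and `θ < 1`.

1. Let `A ≥ 2`. For all `α > 0` outside a set of Hausdorff dimension at most `(A / 4 + 1 / 6 + τ) / (1 - θ)` and every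
real number `c`, for all but finitely many `n`, for ALL integers `d` with `||d| - α v_n| ≤ v_n ^ θ`, all integral
solutions of `y² = x³ + d` with `x ≠ 0`, `log |x| ≤ A log |d|` satisfy `log |x| < 2 log |d| - c` (so `ε = 0` is allowed in
Hall's inequality and the constant can be any negative number).

2. For all `α > 0` outside a set of Hausdorff dimension at most `(99 / 100 + τ) / (1 - θ)`, for all but finitely many
`n`, for ALL integers `d` with `||d| - α v_n| ≤ v_n ^ θ`, all integral solutions of `y² = x³ + d` satisfy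
`log |x| > |d| ^ (1 / 10000)`.

The numbers of exceptions are from the starting results `MP_f2148a_nt.SparseViolations` and `MP_f2148a_nt.AlmostAllK`,
the passage to windows from the starting module `Pool.Agent.Y854.GM.Win`.
-/

set_option autoImplicit false

namespace Pool.Agent.Results.MP_9d7cd1_nt.HallWindows

open Pool.Agent.Results.MP_f2148a_nt

/-- the exponent of convergence of the sequence `v` is at most `τ` -/
def ExpLe (v : ℕ → ℝ) (τ : ℝ) : Prop := ∀ t : ℝ, τ < t → Summable (fun n : ℕ => (v n) ^ (-t))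

/-- the `d` with an integral solution with `2 log |d| - c ≤ log |x| ≤ A log |d|` -/
def Viol (A c : ℝ) : Set ℤ := {d : ℤ | d ≠ 0 ∧ ∃ x y : ℤ, y ^ 2 = x ^ 3 + d ∧ x ≠ 0 ∧
  2 * Real.log |(d : ℝ)| - c ≤ Real.log |(x : ℝ)| ∧ Real.log |(x : ℝ)| ≤ A * Real.log |(d : ℝ)|}

/-- the `d` with an integral solution with `log |x| ≤ |d| ^ (1 / 10000)` -/
def Sol : Set ℤ := {d : ℤ | d ≠ 0 ∧ ∃ x y : ℤ, y ^ 2 = x ^ 3 + d ∧
  Real.log |(x : ℝ)| ≤ |(d : ℝ)| ^ ((1 : ℝ) / 10000)}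

lemma fin_le (X : ℝ) : {k : ℤ | |(k : ℝ)| ≤ X}.Finite := by
  apply (Set.finite_Icc (-⌊X⌋) ⌊X⌋).subset
  intro k hk
  have h := abs_le.1 (show |(k : ℝ)| ≤ X from hk)
  rw [Set.mem_Icc]
  constructor
  · have : -k ≤ ⌊X⌋ := Int.le_floor.2 (by push_cast; linarith [h.1])
    linarith
  · exact Int.le_floor.2 h.2

/-- a violation with large `|d|` is a violation of Hall's inequality `max (|x|, |y|) ≤ C |d|³` -/
lemma viol_hall (A c : ℝ) : ∃ C D : ℝ, 0 < C ∧ 1 ≤ D ∧ ∀ d : ℤ, d ∈ Viol A c → D < |(d : ℝ)| →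
    ∃ x y : ℤ, y ^ 2 = x ^ 3 + d ∧ C * |(d : ℝ)| ^ 3 < max |(x : ℝ)| |(y : ℝ)| ∧
      |(x : ℝ)| ≤ |(d : ℝ)| ^ A := by
  set κ : ℝ := Real.exp (-c) with hκ
  have hκ0 : 0 < κ := Real.exp_pos _
  -- `C² ≤ κ³ / 4`
  set C : ℝ := κ ^ ((3 : ℝ) / 2) / 2 with hC
  have hC0 : 0 < C := by rw [hC]; positivity
  have hC2 : C ^ 2 = κ ^ 3 / 4 := by
    rw [hC, div_pow, ← Real.rpow_natCast (κ ^ ((3 : ℝ) / 2)), ← Real.rpow_mul hκ0.le,
      ← Real.rpow_natCast κ 3]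
    norm_num
  refine ⟨C, max 1 (max (1 / κ) (4 / κ ^ 3)), hC0, le_max_left _ _, fun d hd hD => ?_⟩
  obtain ⟨hd0, x, y, hxy, hx0, h1, h2⟩ := hd
  have hd1 : 1 < |(d : ℝ)| := lt_of_le_of_lt (le_max_left _ _) hD
  have hdk : 1 / κ < |(d : ℝ)| := lt_of_le_of_lt ((le_max_left _ _).trans (le_max_right _ _)) hD
  have hdk3 : 4 / κ ^ 3 < |(d : ℝ)| := lt_of_le_of_lt ((le_max_right _ _).trans (le_max_right _ _)) hD
  set δ : ℝ := |(d : ℝ)| with hδ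
  have hδ0 : 0 < δ := by linarith
  have hxr : (0 : ℝ) < |(x : ℝ)| := abs_pos.2 (by exact_mod_cast hx0)
  have hlow : κ * δ ^ 2 ≤ |(x : ℝ)| := by
    have e : κ * δ ^ 2 = Real.exp (2 * Real.log δ - c) := by
      rw [Real.exp_sub, mul_comm 2, Real.exp_mul, Real.exp_log hδ0, hκ, Real.exp_neg]
      norm_num
      ring
    rw [e, ← Real.exp_log hxr]
    exact Real.exp_le_exp.2 h1
  have hup : |(x : ℝ)| ≤ δ ^ A := by
    rw [← Real.exp_log hxr, Real.rpow_def_of_pos hδ0, mul_comm]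
    exact Real.exp_le_exp.2 (by linarith [mul_comm A (Real.log δ)])
  have hk1 : 1 < κ * δ := by
    rw [div_lt_iff₀ hκ0] at hdk
    linarith
  have hk3 : 4 < κ ^ 3 * δ := by
    rw [div_lt_iff₀ (by positivity)] at hdk3
    linarith
  have hyr : (y : ℝ) ^ 2 = (x : ℝ) ^ 3 + d := by exact_mod_cast hxy
  have hdle : (d : ℝ) ≤ δ := le_abs_self _
  have hdge : -δ ≤ (d : ℝ) := neg_abs_le _
  have hδx : δ < |(x : ℝ)| := by nlinarith
  -- `x` is positive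
  have hxpos : 0 < (x : ℝ) := by
    by_contra hneg
    push Not at hneg
    have h3 : |(x : ℝ)| = -(x : ℝ) := abs_of_nonpos hneg
    have h4 : (x : ℝ) ^ 3 = -(|(x : ℝ)| ^ 3) := by rw [h3]; ring
    have h5 : |(x : ℝ)| ≤ |(x : ℝ)| ^ 3 := by
      have : 1 ≤ |(x : ℝ)| := by linarith
      calc |(x : ℝ)| = |(x : ℝ)| ^ 1 := (pow_one _).symm
        _ ≤ |(x : ℝ)| ^ 3 := pow_le_pow_right₀ this (by norm_num)
    nlinarith [sq_nonneg (y : ℝ)]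
  have hxx : |(x : ℝ)| = (x : ℝ) := abs_of_pos hxpos
  have h6 : (κ * δ ^ 2) ^ 3 ≤ (x : ℝ) ^ 3 := by
    rw [← hxx]
    exact pow_le_pow_left₀ (by positivity) hlow 3
  have h7 : (C * δ ^ 3) ^ 2 < (y : ℝ) ^ 2 := by
    have e1 : (C * δ ^ 3) ^ 2 = κ ^ 3 * δ ^ 6 / 4 := by
      rw [mul_pow, hC2]
      ring
    have e2 : (κ * δ ^ 2) ^ 3 = κ ^ 3 * δ ^ 6 := by ring
    have e3 : δ < κ ^ 3 * δ ^ 6 / 4 := by
      have h8 : 1 ≤ δ ^ 5 := one_le_pow₀ hd1.le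
      have h9 : κ ^ 3 * δ ^ 6 = (κ ^ 3 * δ) * δ ^ 5 := by ring
      have h10 : δ ≤ δ ^ 5 := by
        calc δ = δ ^ 1 := (pow_one _).symm
          _ ≤ δ ^ 5 := pow_le_pow_right₀ hd1.le (by norm_num)
      rw [h9]
      nlinarith
    rw [e1, hyr]
    rw [e2] at h6
    linarith
  have h8 : C * δ ^ 3 < |(y : ℝ)| := by
    have := sq_lt_sq.1 h7
    rwa [abs_of_pos (by positivity : (0 : ℝ) < C * δ ^ 3)] at this
  exact ⟨x, y, hxy, lt_of_lt_of_le h8 (le_max_right _ _), hup⟩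

lemma count_viol (A c : ℝ) (hA : 2 ≤ A) (ε : ℝ) (hε : 0 < ε) : ∃ M : ℝ, ∀ X : ℝ, 1 ≤ X →
    {k | k ∈ Viol A c ∧ |((k : ℤ) : ℝ)| ≤ X}.Finite ∧
      ({k | k ∈ Viol A c ∧ |((k : ℤ) : ℝ)| ≤ X}.ncard : ℝ) ≤ M * X ^ (A / 4 + 1 / 6 + ε) := by
  obtain ⟨C, D, hC, hD, hV⟩ := viol_hall A c
  obtain ⟨M, hM⟩ := SparseViolations.result C A ε hC hA hε
  refine ⟨M + ({k : ℤ | |(k : ℝ)| ≤ D}.ncard : ℝ), fun X hX =>
    ⟨(fin_le X).subset fun k hk => hk.2, ?_⟩⟩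
  have hX0 : (0 : ℝ) < X := by linarith
  have h1 : {k | k ∈ Viol A c ∧ |((k : ℤ) : ℝ)| ≤ X} ⊆
      {k : ℤ | k ≠ 0 ∧ |(k : ℝ)| ≤ X ∧ ∃ x y : ℤ, y ^ 2 = x ^ 3 + k ∧
        C * |(k : ℝ)| ^ 3 < max |(x : ℝ)| |(y : ℝ)| ∧ |(x : ℝ)| ≤ X ^ A} ∪
      {k : ℤ | |(k : ℝ)| ≤ D} := by
    rintro k ⟨hk, hkX⟩
    rcases le_or_gt (|(k : ℝ)|) D with h | h
    · exact Or.inr h
    · obtain ⟨x, y, h2, h3, h4⟩ := hV k hk h
      exact Or.inl ⟨hk.1, hkX, x, y, h2, h3,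
        h4.trans (Real.rpow_le_rpow (abs_nonneg _) hkX (by linarith))⟩
  have hf1 : {k : ℤ | k ≠ 0 ∧ |(k : ℝ)| ≤ X ∧ ∃ x y : ℤ, y ^ 2 = x ^ 3 + k ∧
        C * |(k : ℝ)| ^ 3 < max |(x : ℝ)| |(y : ℝ)| ∧ |(x : ℝ)| ≤ X ^ A}.Finite :=
    (fin_le X).subset fun k hk => hk.2.1
  have h2 := (Set.ncard_le_ncard h1 (hf1.union (fin_le D))).trans (Set.ncard_union_le _ _)
  have h3 : 1 ≤ X ^ (A / 4 + 1 / 6 + ε) := Real.one_le_rpow hX (by linarith)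
  have h4 : (({k | k ∈ Viol A c ∧ |((k : ℤ) : ℝ)| ≤ X}.ncard : ℕ) : ℝ) ≤
      ({k : ℤ | k ≠ 0 ∧ |(k : ℝ)| ≤ X ∧ ∃ x y : ℤ, y ^ 2 = x ^ 3 + k ∧
        C * |(k : ℝ)| ^ 3 < max |(x : ℝ)| |(y : ℝ)| ∧ |(x : ℝ)| ≤ X ^ A}.ncard : ℝ) +
      ({k : ℤ | |(k : ℝ)| ≤ D}.ncard : ℝ) := by exact_mod_cast h2
  refine h4.trans ?_
  rw [add_mul]
  apply add_le_add (hM X hX)
  exact le_mul_of_one_le_right (Nat.cast_nonneg _) h3

lemma count_sol : ∃ M : ℝ, ∀ X : ℝ, 1 ≤ X →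
    {k | k ∈ Sol ∧ |((k : ℤ) : ℝ)| ≤ X}.Finite ∧
      ({k | k ∈ Sol ∧ |((k : ℤ) : ℝ)| ≤ X}.ncard : ℝ) ≤ M * X ^ ((99 : ℝ) / 100) := by
  obtain ⟨M, hM⟩ := AlmostAllK.result
  refine ⟨M, fun X hX => ⟨(fin_le X).subset fun k hk => hk.2, ?_⟩⟩
  refine le_trans ?_ (hM X hX)
  rw [Nat.cast_le]
  apply Set.ncard_le_ncard _ ((fin_le X).subset fun k hk => hk.2.1)
  rintro k ⟨⟨h0, x, y, h1, h2⟩, h4⟩
  refine ⟨h0, h4, x, y, h1, ?_⟩
  have h5 : |(k : ℝ)| ^ ((1 : ℝ) / 10000) ≤ X ^ ((1 : ℝ) / 10000) :=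
    Real.rpow_le_rpow (abs_nonneg _) h4 (by norm_num)
  rcases eq_or_ne x 0 with rfl | hx
  · simp only [Int.cast_zero, abs_zero]
    exact (Real.exp_pos _).le
  · have hxr : (0 : ℝ) < |(x : ℝ)| := abs_pos.2 (by exact_mod_cast hx)
    rw [← Real.exp_log hxr]
    exact Real.exp_le_exp.2 (h2.trans h5)

/-- **Theorem.** Let `v ≥ 1` be a sequence of exponent of convergence at most `τ ≥ 0` and `θ < 1`.

(1) For every `A ≥ 2` there is a set `E` of Hausdorff dimension at most `(A / 4 + 1 / 6 + τ) / (1 - θ)` such that for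
each `α > 0` outside `E` and each real number `c`, for all but finitely many `n` and ALL integers `d ≠ 0` with
`||d| - α v_n| ≤ v_n ^ θ`, all integers `x ≠ 0`, `y` with `y² = x³ + d` and `log |x| ≤ A log |d|` satisfy
`log |x| < 2 log |d| - c`.

(2) There is a set `E` of Hausdorff dimension at most `(99 / 100 + τ) / (1 - θ)` such that for each `α > 0` outside `E`,
for all but finitely many `n` and ALL integers `d ≠ 0` with `||d| - α v_n| ≤ v_n ^ θ`, all integers `x`, `y` with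
`y² = x³ + d` satisfy `log |x| > |d| ^ (1 / 10000)`.

(3), (4) The sequences `v_n = (n + 1) ^ a` and `v_n = b ^ n` have exponent of convergence at most `1 / a` and `0`. -/
theorem result :
    (∀ (v : ℕ → ℝ) (τ θ : ℝ), (∀ n, 1 ≤ v n) → 0 ≤ τ → ExpLe v τ → θ < 1 → ∀ A : ℝ, 2 ≤ A →
      ∃ E : Set ℝ, dimH E ≤ ENNReal.ofReal ((A / 4 + 1 / 6 + τ) / (1 - θ)) ∧
        ∀ α : ℝ, 0 < α → α ∉ E → ∀ c : ℝ, ∃ n₀ : ℕ, ∀ n : ℕ, n₀ ≤ n →
          ∀ d : ℤ, d ≠ 0 → |(|(d : ℝ)|) - α * v n| ≤ (v n) ^ θ → ∀ x y : ℤ, y ^ 2 = x ^ 3 + d → x ≠ 0 →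
            Real.log |(x : ℝ)| ≤ A * Real.log |(d : ℝ)| →
              Real.log |(x : ℝ)| < 2 * Real.log |(d : ℝ)| - c) ∧
    (∀ (v : ℕ → ℝ) (τ θ : ℝ), (∀ n, 1 ≤ v n) → 0 ≤ τ → ExpLe v τ → θ < 1 →
      ∃ E : Set ℝ, dimH E ≤ ENNReal.ofReal ((99 / 100 + τ) / (1 - θ)) ∧
        ∀ α : ℝ, 0 < α → α ∉ E → ∃ n₀ : ℕ, ∀ n : ℕ, n₀ ≤ n →
          ∀ d : ℤ, d ≠ 0 → |(|(d : ℝ)|) - α * v n| ≤ (v n) ^ θ → ∀ x y : ℤ, y ^ 2 = x ^ 3 + d →
            |(d : ℝ)| ^ ((1 : ℝ) / 10000) < Real.log |(x : ℝ)|) ∧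
    (∀ a : ℝ, 0 < a → ExpLe (fun n : ℕ => ((n : ℝ) + 1) ^ a) (1 / a)) ∧
    (∀ b : ℝ, 1 < b → ExpLe (fun n : ℕ => b ^ n) 0) := by
  refine ⟨fun v τ θ hv hτ hE hθ A hA => ?_, fun v τ θ hv hτ hE hθ => ?_,
    fun κ hκ => Pool.Agent.Y854.GM.expLe_pow κ hκ, fun b hb => Pool.Agent.Y854.GM.expLe_geom b hb⟩
  · have hj : ∀ j : ℕ, ∃ E : Set ℝ, dimH E ≤ ENNReal.ofReal ((A / 4 + 1 / 6 + τ) / (1 - θ)) ∧
        ∀ α : ℝ, 0 < α → α ∉ E → ∃ n₀ : ℕ, ∀ n : ℕ, n₀ ≤ n →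
          ∀ k ∈ Viol A j, (v n) ^ θ < |(|((k : ℤ) : ℝ)|) - α * v n| := fun j =>
      Pool.Agent.Y854.GM.windows (Viol A j) (fun k : ℤ => |(k : ℝ)|) hv hτ hE
        (s := A / 4 + 1 / 6) (by linarith) hθ (fun ε hε => count_viol A _ hA ε hε)
    choose E hE1 hE2 using hj
    refine ⟨⋃ j, E j, ?_, fun α hα hαE c => ?_⟩
    · rw [dimH_iUnion]
      exact iSup_le hE1
    · obtain ⟨j, hj⟩ := exists_nat_ge c
      obtain ⟨n₀, hn⟩ := hE2 j α hα (fun h => hαE (Set.mem_iUnion.2 ⟨j, h⟩))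
      refine ⟨n₀, fun n hn1 d hd0 hw x y hxy hx0 hx => ?_⟩
      by_contra hcon
      push Not at hcon
      exact absurd (hn n hn1 d ⟨hd0, x, y, hxy, hx0, by linarith, hx⟩) (not_lt.2 hw)
  · obtain ⟨E, h2, h3⟩ := Pool.Agent.Y854.GM.windows Sol (fun k : ℤ => |(k : ℝ)|) hv hτ hE
      (s := 99 / 100) (by norm_num) hθ (fun ε hε => by
        obtain ⟨M, hM⟩ := count_sol
        refine ⟨|M|, fun X hX => ⟨(hM X hX).1, (hM X hX).2.trans ?_⟩⟩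
        have hX0 : (0 : ℝ) < X := by linarith
        calc M * X ^ ((99 : ℝ) / 100) ≤ |M| * X ^ ((99 : ℝ) / 100) :=
              mul_le_mul_of_nonneg_right (le_abs_self M) (by positivity)
          _ ≤ |M| * X ^ ((99 : ℝ) / 100 + ε) :=
              mul_le_mul_of_nonneg_left (Real.rpow_le_rpow_of_exponent_le hX (by linarith))
                (abs_nonneg M))
    refine ⟨E, h2, fun α hα hαE => ?_⟩
    obtain ⟨n₀, hn⟩ := h3 α hα hαE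
    refine ⟨n₀, fun n hn1 k hk0 hw x y hxy => ?_⟩
    by_contra hcon
    push Not at hcon
    exact absurd (hn n hn1 k ⟨hk0, x, y, hxy, hcon⟩) (not_lt.2 hw)

end Pool.Agent.Results.MP_9d7cd1_nt.HallWindows
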