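import Mathlib
import Pool.Agent.X5.SD.Hall

/-!
# Integral points with small digits on Mordell curves

Let `N` and `H` be integers with `N > 4 H ^ 3`, and let `y ^ 2 = x ^ 3 + d`, `d ≠ 0`, where `x` and `y`
are sums of `d_i N ^ i` (any number of terms) with integers `d_i` of any sign and `∑ |d_i| ≤ H`, and
`|x| > H`. Then `N ^ 2 |x| ≤ 8 H d ^ 2`; in particular `log |x| < 2 log |d|`.

Method: the inequality of Davenport for polynomials (with its `+ 1`, proved here for polynomials with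
common factors) is evaluated at `N`.
-/

set_option autoImplicit false

namespace Pool.Agent.Results.MP_9d7cd1_nt.SmallDigits

open Polynomial Finset

/-- `x` is a sum of `e i * N ^ i`, `i < k`, with integers `e i` the sum of whose absolute values is
at most `H`. -/
def Digits (N H x : ℤ) : Prop :=
  ∃ (k : ℕ) (e : ℕ → ℤ), x = ∑ i ∈ range k, e i * N ^ i ∧ ∑ i ∈ range k, |e i| ≤ H

theorem poly {N H x : ℤ} (h : Digits N H x) :
    ∃ f F : ℤ[X], Pool.Agent.X5.SD.Dm f F ∧ F.eval 1 ≤ H ∧ f.eval N = x := by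
  obtain ⟨k, e, hx, hs⟩ := h
  refine ⟨∑ i ∈ range k, C (e i) * X ^ i, ∑ i ∈ range k, C |e i| * X ^ i,
    Pool.Agent.X5.SD.Dm.sum _ fun i _ => Pool.Agent.X5.SD.Dm.monomial _ _, ?_, ?_⟩
  · rw [eval_finsetSum]
    simp only [eval_mul, eval_C, eval_pow, eval_X, one_pow, mul_one]
    exact hs
  · rw [eval_finsetSum, hx]
    exact sum_congr rfl fun i _ => by rw [eval_mul, eval_C, eval_pow, eval_X]

theorem result (N H : ℤ) (hN : 4 * H ^ 3 < N) (d x y : ℤ) (hd : d ≠ 0) (heq : y ^ 2 = x ^ 3 + d)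
    (hx : Digits N H x) (hy : Digits N H y) (hbig : H < |x|) :
    N ^ 2 * |x| ≤ 8 * H * d ^ 2 ∧ Real.log |(x : ℝ)| < 2 * Real.log |(d : ℝ)| := by
  obtain ⟨f, F, hf, hF, ef⟩ := poly hx
  obtain ⟨g, G, hg, hG, eg⟩ := poly hy
  have h1 := Pool.Agent.X5.SD.hall_pair hN hf hg hF hG (by rw [ef]; exact hbig) (by
    rw [ef, eg, heq]
    intro h
    exact hd (by linarith))
  rw [ef, eg, heq, add_sub_cancel_left] at h1
  refine ⟨h1, ?_⟩
  have hH0 : 0 ≤ H := hf.eval_nonneg.trans hF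
  have hH1 : 1 ≤ H := by
    by_contra hcon
    have h0 : H = 0 := by omega
    rw [h0] at h1 hN hbig
    have h2 : 0 < N ^ 2 * |x| := mul_pos (by positivity) hbig
    simp at h1
    linarith
  have hx0 : 0 < |x| := by linarith
  have hH3 : H ≤ H ^ 3 := le_self_pow₀ hH1 (by norm_num)
  have hN4 : 4 * H < N := by linarith
  have hN2 : 8 * H < N ^ 2 := by nlinarith
  have hd2 : 0 < d ^ 2 := by positivity
  have h2 : |x| < d ^ 2 := by
    by_contra hcon
    push Not at hcon
    have h3 : 8 * H * d ^ 2 < N ^ 2 * d ^ 2 := mul_lt_mul_of_pos_right hN2 hd2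
    have h4 : N ^ 2 * d ^ 2 ≤ N ^ 2 * |x| := mul_le_mul_of_nonneg_left hcon (by positivity)
    linarith
  have h3 : |(x : ℝ)| < |(d : ℝ)| ^ 2 := by
    rw [sq_abs]
    have : ((|x| : ℤ) : ℝ) < ((d ^ 2 : ℤ) : ℝ) := by exact_mod_cast h2
    push_cast at this
    exact this
  have h4 : 0 < |(x : ℝ)| := by
    have : (0 : ℝ) < ((|x| : ℤ) : ℝ) := by exact_mod_cast hx0
    push_cast at this
    exact this
  have h5 := Real.log_lt_log h4 h3
  rw [Real.log_pow] at h5
  exact_mod_cast h5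

end Pool.Agent.Results.MP_9d7cd1_nt.SmallDigits
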